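import Pool.Agent.Helper59.TWR.VF2
import Pool.Agent.Helper98.TA.Stmts

/-! VC2: functions orthogonal to all unimodular functions of a class (MP_7a8f48_an, sheet TA). -/

set_option linter.unusedSectionVars false

open MeasureTheory Filter Topology Finset
open scoped ComplexConjugate

namespace Pool.Agent.Helper59.TA

open Pool.Agent.Helper98.TW
open Pool.Agent.Helper98.TA (J1 J2 B2 ST_VC2)
open Pool.Agent.Helper98.GY (JY JJY)
open Pool.Agent.Helper40.TWM (St HQ)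
open Pool.Agent.Helper96.TWR (st_PFC AM_comp AM_factor cm_le)
open Pool.Agent.Helper59.TWR (inc_iterate ia_cm lq_cm Wi_one int_cm al_cm)

variable {Ω : Type} [m0 : MeasurableSpace Ω] {μ : Measure Ω} {S S' : Ω → Ω} {p q : ℕ}
  {κ : Measure (Ω × Ω)}

/-- the system of a joining -/
theorem sys_jy (h : St μ S S') (hκ : JY S μ p q κ) :
    Sys κ (Prod.map S^[p] S^[q]) (Prod.map S'^[p] S'^[q]) := by
  have h1 : ∀ (P : Ω → Prop), (∀ᵐ x ∂μ, P x) → ∀ᵐ z ∂κ, P z.1 := fun P hP =>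
    (⟨measurable_fst, hκ.fst⟩ : MeasurePreserving Prod.fst κ μ).quasiMeasurePreserving.ae hP
  have h2 : ∀ (P : Ω → Prop), (∀ᵐ x ∂μ, P x) → ∀ᵐ z ∂κ, P z.2 := fun P hP =>
    (⟨measurable_snd, hκ.snd⟩ : MeasurePreserving Prod.snd κ μ).quasiMeasurePreserving.ae hP
  have hl : ∀ᵐ z ∂κ, Prod.map S'^[p] S'^[q] (Prod.map S^[p] S^[q] z) = z := by
    filter_upwards [h1 _ (h.sys p).l, h2 _ (h.sys q).l] with z hz1 hz2
    exact Prod.ext hz1 hz2
  have hr : ∀ᵐ z ∂κ, Prod.map S^[p] S^[q] (Prod.map S'^[p] S'^[q] z) = z := by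
    filter_upwards [h1 _ (h.sys p).r, h2 _ (h.sys q).r] with z hz1 hz2
    exact Prod.ext hz1 hz2
  have hM' : Measurable (Prod.map S'^[p] S'^[q]) :=
    (h.sys p).mp'.measurable.prodMap (h.sys q).mp'.measurable
  have hmp := hκ.erg.toMeasurePreserving
  refine ⟨hmp, ⟨hM', ?_⟩, hl, hr⟩
  have h3 : Measure.map (Prod.map S'^[p] S'^[q]) (Measure.map (Prod.map S^[p] S^[q]) κ) = κ := by
    rw [Measure.map_map hM' hmp.measurable]
    have h4 : (Prod.map S'^[p] S'^[q]) ∘ (Prod.map S^[p] S^[q]) =ᵐ[κ] id := hl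
    rw [Measure.map_congr h4, Measure.map_id]
  rwa [hmp.map_eq] at h3

theorem mp_fst (hκ : JY S μ p q κ) : MeasurePreserving (Prod.fst : Ω × Ω → Ω) κ μ :=
  ⟨measurable_fst, hκ.fst⟩

theorem mp_snd (hκ : JY S μ p q κ) : MeasurePreserving (Prod.snd : Ω × Ω → Ω) κ μ :=
  ⟨measurable_snd, hκ.snd⟩

/-- the sigma algebra of the second coordinate is invariant -/
theorem ia_B2 (h : St μ S S') (hκ : JY S μ p q κ) :
    IA κ (B2 Ω) (Prod.map S^[p] S^[q]) (Prod.map S'^[p] S'^[q]) := by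
  have hS := sys_jy h hκ
  have hq := h.sys q
  refine ia_cm (mp_snd hκ) (S := S^[q]) (S' := S'^[q]) (fun _ => rfl) (fun _ => rfl)
    hS.mp hS.mp' ⟨le_refl (α := MeasurableSpace Ω) _, fun g hg => ⟨?_, ?_⟩⟩
  · exact AEStronglyMeasurable.comp_measurePreserving hg hq.mp
  · exact AEStronglyMeasurable.comp_measurePreserving hg hq.mp'

/-- invariant sigma algebras of the first coordinate -/
theorem ia_J1 (h : St μ S S') (hκ : JY S μ p q κ) {ℬ : SA Ω} (hB : IA μ ℬ S^[p] S'^[p]) :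
    IA κ (J1 ℬ) (Prod.map S^[p] S^[q]) (Prod.map S'^[p] S'^[q]) := by
  have hS := sys_jy h hκ
  exact ia_cm (mp_fst hκ) (fun _ => rfl) (fun _ => rfl) hS.mp hS.mp' hB

/-- invariant sigma algebras of the second coordinate -/
theorem ia_J2 (h : St μ S S') (hκ : JY S μ p q κ) {ℬ : SA Ω} (hB : IA μ ℬ S^[q] S'^[q]) :
    IA κ (J2 ℬ) (Prod.map S^[p] S^[q]) (Prod.map S'^[p] S'^[q]) := by
  have hS := sys_jy h hκ
  exact ia_cm (mp_snd hκ) (fun _ => rfl) (fun _ => rfl) hS.mp hS.mp' hB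

/-- an estimate for functions of the first coordinate in terms of functions of pairs -/
theorem est_pairs [IsProbabilityMeasure μ] (hκ : JY S μ p q κ) {C E : SA Ω} (hC : Lm C)
    (hE : Lm E) {δ : ℝ}
    (hVE : ∀ G : Ω → ℂ, BF G → AM μ E G → μ[G|C] =ᵐ[μ] 0 → JJY κ G ≤ δ * ∫ x, ‖G x‖ ^ 2 ∂μ)
    {G : Ω × Ω → ℂ} (hG : BF G) (hGA : AM κ (J1 E) G) (h0 : κ[G|J1 C] =ᵐ[κ] 0) :
    ∫ z, ‖(κ[G|B2 Ω]) z‖ ^ 2 ∂κ ≤ δ * ∫ z, ‖G z‖ ^ 2 ∂κ := by
  classical
  have hP : IsProbabilityMeasure κ := hκ.prob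
  have hfst := mp_fst hκ
  obtain ⟨g₀, hgm₀, hgA₀, hGg₀⟩ := AM_factor (μ' := μ) hE hGA
  obtain ⟨hGm, B, hB⟩ := hG
  have hgB₀ : ∀ᵐ x ∂μ, ‖g₀ x‖ ≤ B := by
    rw [← hκ.fst]
    refine (ae_map_iff measurable_fst.aemeasurable
      (measurableSet_le hgm₀.norm measurable_const)).2 ?_
    filter_upwards [hGg₀] with z hz
    rw [← hz]
    exact hB z
  obtain ⟨g, hgm, hgB, hgg⟩ : ∃ g : Ω → ℂ, Measurable g ∧ (∀ x, ‖g x‖ ≤ |B|) ∧ g₀ =ᵐ[μ] g := by
    refine ⟨fun x => if ‖g₀ x‖ ≤ B then g₀ x else 0,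
      Measurable.ite (measurableSet_le hgm₀.norm measurable_const) hgm₀ measurable_const, ?_, ?_⟩
    · intro x
      by_cases hx : ‖g₀ x‖ ≤ B
      · simp only [if_pos hx]
        exact hx.trans (le_abs_self B)
      · simp only [if_neg hx, norm_zero]
        exact abs_nonneg B
    · filter_upwards [hgB₀] with x hx
      rw [if_pos hx]
  have hgA : AM μ E g := am_congr hgA₀ hgg
  have hGg : G =ᵐ[κ] fun z => g z.1 := by
    filter_upwards [hGg₀, hfst.quasiMeasurePreserving.ae hgg] with z hz1 hz2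
    rw [hz1, hz2]
  have hgi : Integrable g μ :=
    Integrable.of_bound hgm.aestronglyMeasurable |B| (Eventually.of_forall hgB)
  have hg0 : μ[g|C] =ᵐ[μ] 0 := by
    have h1 := (st_PFC _ _ κ μ Prod.fst C hfst hC).1 g hgi
    have h2 : κ[fun z : Ω × Ω => g z.1|cm Prod.fst C] =ᵐ[κ] κ[G|cm Prod.fst C] :=
      condExp_congr_ae hGg.symm
    have hm : Measurable (μ[g|C]) := (stronglyMeasurable_condExp.mono hC).measurable
    have hae : ∀ᵐ x ∂(κ.map Prod.fst), (μ[g|C]) x = 0 := by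
      refine (ae_map_iff measurable_fst.aemeasurable
        (measurableSet_eq_fun hm measurable_const)).2 ?_
      filter_upwards [h1, h2, h0] with z h3 h4 h5
      rw [← h3, h4]
      exact h5
    rw [hκ.fst] at hae
    exact hae
  have hmain := hVE g ⟨hgm, |B|, hgB⟩ hgA hg0
  unfold JJY at hmain
  have e1 : ∫ z, ‖(κ[G|B2 Ω]) z‖ ^ 2 ∂κ =
      ∫ z, ‖(κ[fun z : Ω × Ω => g z.1|B2 Ω]) z‖ ^ 2 ∂κ := by
    refine integral_congr_ae ?_
    filter_upwards [condExp_congr_ae (m := B2 Ω) hGg] with z hz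
    rw [hz]
  have e2 : ∫ z, ‖G z‖ ^ 2 ∂κ = ∫ x, ‖g x‖ ^ 2 ∂μ := by
    rw [← int_cm hfst (g := fun x => ‖g x‖ ^ 2) (hgm.norm.pow_const 2).aestronglyMeasurable]
    refine integral_congr_ae ?_
    filter_upwards [hGg] with z hz
    rw [hz]
  rw [e1, e2]
  exact hmain

theorem st_VC2 (hKK : ST_KK) (hBI : ST_BI) : ST_VC2 := by
  intro Ω m0 μ hμ S S' p q κ C E n δ h F hSt hp hq hκ hC hE hCE hSM hδ hVE hh hhI hF hFA hperp
  have hP : IsProbabilityMeasure κ := hκ.prob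
  have hfst := mp_fst hκ
  have hSp := hSt.sys p
  have hSmp : MeasurePreserving S μ μ := by
    have := (hSt.sys 1).mp
    simpa using this
  have hCp : IA μ C S^[p] S'^[p] := hC.iterate p
  have hAp : IA μ E S^[p] S'^[p] := hE.iterate p
  have hex : Inc μ E S^[p] h := inc_iterate hE hSmp hh hhI p
  have hK := hKK Ω μ S^[p] S'^[p] C E h F n hSp (hSt.erg p hp) hCp hAp hCE hh hex hSM hF hFA
    (fun ψ hψ hψI hψA => hperp ψ hψ hψI hψA)
  set A : ℝ := ∫ x, ‖F x‖ ^ 2 ∂μ with hA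
  have hA0 : 0 ≤ A := integral_nonneg fun x => by positivity
  have hF' : BF (fun z : Ω × Ω => F z.1) := by
    obtain ⟨hFm, B, hB⟩ := hF
    exact ⟨hFm.comp measurable_fst, B, fun z => hB z.1⟩
  have hinc : ∀ m n : ℕ, AM μ E (fun x => F ((S^[p])^[m] x) * conj (F ((S^[p])^[n] x))) := by
    intro m n
    have h1 : ∀ k : ℕ, AM μ E (fun x => h ((S^[p])^[k] x) * conj (h x)) := fun k =>
      inc_iterate hAp hSp.mp hh hex k
    have h2 : ∀ k : ℕ, AM μ E (fun x => conj (h ((S^[p])^[k] x)) * F ((S^[p])^[k] x)) := fun k =>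
      ((hAp.iterate k).2 _ hFA).1
    refine am_congr (am_mul (am_mul (h1 m) (am_conj (h1 n))) (am_mul (h2 m) (am_conj (h2 n)))) ?_
    filter_upwards [hh.mul_conj, ae_comp (hSp.mp.iterate m) hh.mul_conj,
      ae_comp (hSp.mp.iterate n) hh.mul_conj] with x e0 e1 e2
    simp only [map_mul, Complex.conj_conj]
    linear_combination (h ((S^[p])^[m] x) * conj (h ((S^[p])^[m] x)) *
      (h ((S^[p])^[n] x) * conj (h ((S^[p])^[n] x))) *
      (F ((S^[p])^[m] x) * conj (F ((S^[p])^[n] x)))) * e0 +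
      ((h ((S^[p])^[n] x) * conj (h ((S^[p])^[n] x))) *
      (F ((S^[p])^[m] x) * conj (F ((S^[p])^[n] x)))) * e1 +
      (F ((S^[p])^[m] x) * conj (F ((S^[p])^[n] x))) * e2
  have hB := hBI (Ω × Ω) κ (Prod.map S^[p] S^[q]) (Prod.map S'^[p] S'^[q])
    (B2 Ω) (J1 C) (J1 E) (fun z => F z.1) δ (A ^ 2 / (n + 1))
    (sys_jy hSt hκ) hκ.erg (ia_B2 hSt hκ) (ia_J1 hSt hκ hCp) (ia_J1 hSt hκ hAp)
    (lq_cm hfst hCp.1 hCE) hδ (by positivity)
    (fun G hG hGA h0 => est_pairs hκ hCp.1 hAp.1 hVE hG hGA h0) hF' ?_ ?_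
  · have e1 : ∫ z : Ω × Ω, ‖F z.1‖ ^ 2 ∂κ = A :=
      int_cm hfst (g := fun x => ‖F x‖ ^ 2) (hF.1.norm.pow_const 2).aestronglyMeasurable
    rw [e1] at hB
    have e2 : √(A ^ 2 / ((n : ℝ) + 1)) = 1 / √((n : ℝ) + 1) * A := by
      rw [Real.sqrt_div (sq_nonneg A), Real.sqrt_sq hA0]
      ring
    rw [e2] at hB
    unfold JJY
    have e3 : (B2 Ω : MeasurableSpace (Ω × Ω)) = MeasurableSpace.comap Prod.snd m0 := rfl
    rw [e3] at hB
    linarith
  · intro m n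
    have hit : ∀ (k : ℕ) (z : Ω × Ω),
        ((Prod.map S^[p] S^[q])^[k] z).1 = (S^[p])^[k] z.1 := by
      intro k
      induction k with
      | zero => exact fun z => rfl
      | succ k ih =>
        intro z
        rw [Function.iterate_succ_apply, Function.iterate_succ_apply, ih]
        rfl
    simp only [hit]
    exact AM_comp hfst (hinc m n)
  · have e3 : (fun H => al κ (J1 C) (Prod.map S^[p] S^[q])
        (fun _ => (1 : ℂ →L[ℂ] ℂ)) (fun z => F z.1) H) =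
        fun H => al μ C S^[p] (fun _ => (1 : ℂ →L[ℂ] ℂ)) F H := by
      funext H
      exact al_cm hfst hCp.1 (fun _ => rfl) hSp.mp.measurable hF H
    rw [e3]
    exact hK

end Pool.Agent.Helper59.TA
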