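import Pool.Agent.Helper59.TWR.VF2
import Pool.Agent.Helper73.TWR.Tool
import Pool.Agent.Helper98.TA.Stmts

/-! WAL: functions which are orthogonal to the next stage (MP_7a8f48_an, sheet TA). -/

set_option linter.unusedSectionVars false

open MeasureTheory Filter Topology Finset
open scoped ComplexConjugate

namespace Pool.Agent.Helper59.TA

open Pool.Agent.Helper98.TW
open Pool.Agent.Helper98.TA (fr Ga A0 Sa Tr ST_WAL ST_SME)
open Pool.Agent.Helper40.TWM (St HQ)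
open Pool.Agent.Helper73.TWR (ce_bdd ce_mul_zero ce_zero_lq ce_sq_le bf_int uf_bdd int_bdd)
open Pool.Agent.Helper59.TWR (Wi_one)

section

variable {Ω : Type} [m0 : MeasurableSpace Ω] {μ : Measure Ω} {S S' R R' : Ω → Ω} {E : SA Ω}

theorem lm_fr (hE : Lm E) : Lm (fr μ S E) := lm_jo hE (lm_sg fun _ hφ => hφ.1.1)

theorem am_fr {ψ : Ω → ℂ} (hψ : UF μ ψ) (h : Inc μ E S ψ) : AM μ (fr μ S E) ψ :=
  am_jo_right (am_sg ⟨hψ, h⟩)

/-- the sigma algebra of the space is invariant -/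
theorem ia_top (h : Sys μ R R') : IA μ (m0 : SA Ω) R R' := by
  refine ⟨le_refl (α := MeasurableSpace Ω) _, fun g hg => ⟨?_, ?_⟩⟩
  · exact AEStronglyMeasurable.comp_measurePreserving hg h.mp
  · exact AEStronglyMeasurable.comp_measurePreserving hg h.mp'

theorem al_nonneg (C : SA Ω) (F : Ω → ℂ) (H : ℕ) :
    0 ≤ al μ C R (fun _ => (1 : ℂ →L[ℂ] ℂ)) F H := by
  unfold al
  exact div_nonneg (Finset.sum_nonneg fun h _ => integral_nonneg fun x => by positivity)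
    (Nat.cast_nonneg _)

theorem al_le [IsProbabilityMeasure μ] {C : SA Ω} (hC : Lm C) (hR : Measurable R) {F : Ω → ℂ}
    (hF : Measurable F) {B : ℝ} (hB : ∀ x, ‖F x‖ ≤ B) (H : ℕ) :
    al μ C R (fun _ => (1 : ℂ →L[ℂ] ℂ)) F H ≤ (B * B) ^ 2 := by
  unfold al
  refine div_le_of_le_mul₀ (Nat.cast_nonneg _) (sq_nonneg _) ?_
  have hterm : ∀ h ∈ range H, ∫ x, ‖(μ[fun x =>
      (inner ℂ (F x) (Wi (fun _ => (1 : ℂ →L[ℂ] ℂ)) R h F x) : ℂ)|C]) x‖ ^ 2 ∂μ ≤ (B * B) ^ 2 := by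
    intro h _
    simp only [Wi_one]
    have hm : Measurable (fun x => (inner ℂ (F x) (F (R^[h] x)) : ℂ)) :=
      hF.inner (hF.comp (hR.iterate h))
    have hb : ∀ x, ‖(inner ℂ (F x) (F (R^[h] x)) : ℂ)‖ ≤ B * B := fun x =>
      (norm_inner_le_norm _ _).trans (mul_le_mul (hB _) (hB _) (norm_nonneg _)
        ((norm_nonneg _).trans (hB x)))
    have hi : Integrable (fun x => (inner ℂ (F x) (F (R^[h] x)) : ℂ)) μ :=
      Integrable.of_bound hm.aestronglyMeasurable (B * B) (Eventually.of_forall hb)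
    have h1 := ce_bdd hC hi (Eventually.of_forall hb)
    have h2 : ∫ x, ‖(μ[fun x => (inner ℂ (F x) (F (R^[h] x)) : ℂ)|C]) x‖ ^ 2 ∂μ ≤
        ∫ _, (B * B) ^ 2 ∂μ := by
      refine integral_mono_of_nonneg (Eventually.of_forall fun x => by positivity)
        (integrable_const _) ?_
      filter_upwards [h1] with x hx
      exact pow_le_pow_left₀ (norm_nonneg _) hx 2
    simpa using h2
  calc _ ≤ ∑ _h ∈ range H, (B * B) ^ 2 := Finset.sum_le_sum hterm
    _ = (B * B) ^ 2 * (H : ℝ) := by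
      rw [Finset.sum_const, Finset.card_range, nsmul_eq_mul]
      ring

end

theorem st_WAL (hSME : ST_SME) (hKK : ST_KK) : ST_WAL := by
  intro Ω m0 μ hμ S S' u A N E f hSt hTr hE hSa hf h0 p hp
  obtain ⟨hs, hSM⟩ := hSME Ω μ S S' u A N E hSt hTr hE hSa p hp
  have hSp := hSt.sys p
  obtain ⟨hfm, B, hB⟩ := hf
  have hfi : Integrable f μ := Integrable.of_bound hfm.aestronglyMeasurable B
    (Eventually.of_forall hB)
  have hfr : Lm (fr μ S E) := lm_fr hE.1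
  have hperp : ∀ ψ, UF μ ψ → Inc μ E S^[p] ψ →
      AM μ (m0 : SA Ω) (fun x => conj ((fun _ : Ω => (1 : ℂ)) x) * ψ x) →
      μ[fun x => conj (ψ x) * f x|E] =ᵐ[μ] 0 := by
    intro ψ hψ hψI _
    have h1 : AM μ (fr μ S E) (fun x => conj (ψ x)) := am_conj (am_fr hψ (hs ψ hψ hψI))
    have h2 : Integrable (fun x => conj (ψ x) * f x) μ := by
      refine Integrable.of_bound (hψ.conj.1.mul hfm).aestronglyMeasurable B ?_
      filter_upwards [hψ.2] with x hx
      rw [norm_mul, RCLike.norm_conj, hx, one_mul]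
      exact hB x
    exact ce_zero_lq hE.1 hfr lq_jo_left h2 (ce_mul_zero h1 h2 hfi h0)
  have hK : ∀ n : ℕ, limsup (fun H => al μ E S^[p] (fun _ => 1) f H) atTop ≤
      (∫ x, ‖f x‖ ^ 2 ∂μ) ^ 2 / (n + 1) := fun n =>
    hKK Ω μ S^[p] S'^[p] E m0 (fun _ => 1) f n hSp (hSt.erg p hp) (hE.iterate p) (ia_top hSp)
      (fun g hg => am_mono hE.1 hg) uf_one inc_one (hSM n) ⟨hfm, B, hB⟩
      (am_of (by simpa using hfm)) hperp
  have hbdd : IsBoundedUnder (· ≤ ·) atTop (fun H => al μ E S^[p] (fun _ => 1) f H) :=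
    isBoundedUnder_of ⟨(B * B) ^ 2, fun H => al_le hE.1 hSp.mp.measurable hfm hB H⟩
  refine tendsto_order.2 ⟨fun a ha => Eventually.of_forall fun H =>
    lt_of_lt_of_le ha (al_nonneg E f H), fun ε hε => ?_⟩
  obtain ⟨n, hn⟩ := exists_nat_gt ((∫ x, ‖f x‖ ^ 2 ∂μ) ^ 2 / ε)
  refine eventually_lt_of_limsup_lt (lt_of_le_of_lt (hK n) ?_) hbdd
  have hn1 : (0 : ℝ) < (n : ℝ) + 1 := by positivity
  rw [div_lt_iff₀ hε] at hn
  rw [div_lt_iff₀ hn1]
  nlinarith

end Pool.Agent.Helper59.TA
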